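import Mathlib

/-!
Normal weighted composition operators with linear fractional symbol on the Hardy space
(modelled as square summable coefficient sequences).
-/

set_option autoImplicit false

open Set Filter Topology ComplexConjugate
open scoped InnerProductSpace

namespace Pool.Agent.P.MP_9100ee_an

/-- coefficient model of the Hardy space -/
abbrev H : Type := lp (fun _ : ℕ => ℂ) 2

theorem memK {w : ℂ} (hw : ‖w‖ < 1) : Memℓp (fun n : ℕ => conj w ^ n) 2 := by
  apply memℓp_gen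
  have h1 : ‖w‖ ^ 2 < 1 := by nlinarith [norm_nonneg w]
  convert summable_geometric_of_lt_one (by positivity) h1 using 2 with n
  simp only [norm_pow, Complex.norm_conj, ENNReal.toReal_ofNat, Real.rpow_ofNat]
  ring

/-- reproducing kernel -/
noncomputable def K (w : ℂ) (hw : ‖w‖ < 1) : H := ⟨fun n => conj w ^ n, memK hw⟩

theorem hasSum_K {w : ℂ} (hw : ‖w‖ < 1) (f : H) :
    HasSum (fun n => f n * w ^ n) ⟪K w hw, f⟫_ℂ := by
  have h := lp.hasSum_inner (𝕜 := ℂ) (K w hw) f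
  have e : (fun n => ⟪(K w hw) n, f n⟫_ℂ) = fun n => f n * w ^ n := by
    funext n
    have : (K w hw) n = conj w ^ n := rfl
    rw [this, RCLike.inner_apply, map_pow, Complex.conj_conj]
  rwa [e] at h

theorem inner_K {w : ℂ} (hw : ‖w‖ < 1) (f : H) : ⟪K w hw, f⟫_ℂ = ∑' n, f n * w ^ n :=
  (hasSum_K hw f).tsum_eq.symm

theorem inner_K_K {z w : ℂ} (hz : ‖z‖ < 1) (hw : ‖w‖ < 1) :
    ⟪K z hz, K w hw⟫_ℂ = (1 - z * conj w)⁻¹ := by
  rw [inner_K]
  have h : ‖z * conj w‖ < 1 := by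
    rw [norm_mul, Complex.norm_conj]
    exact mul_lt_one_of_nonneg_of_lt_one_left (norm_nonneg _) hz hw.le
  rw [← tsum_geometric_of_norm_lt_one h]
  congr 1
  funext n
  simp only [K, mul_pow]
  ring

theorem coeff_eq_zero (f : ℕ → ℂ) (C : ℝ) (hb : ∀ n, ‖f n‖ ≤ C)
    (h : ∀ z : ℂ, ‖z‖ < 1 → HasSum (fun n => f n * z ^ n) 0) : f = 0 := by
  let p := FormalMultilinearSeries.ofScalars ℂ f
  have hr : ((1 : NNReal) : ENNReal) ≤ p.radius :=
    p.le_radius_of_bound C fun n => by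
      simpa [p, FormalMultilinearSeries.ofScalars_norm] using hb n
  have h1 := (p.hasFPowerSeriesOnBall (lt_of_lt_of_le (by simp) hr)).hasFPowerSeriesAt
  have h2 : p.sum =ᶠ[𝓝 0] 0 := by
    filter_upwards [Metric.ball_mem_nhds (0 : ℂ) one_pos] with z hz
    have := FormalMultilinearSeries.ofScalars_sum_eq f z
    change p.sum z = _ at this
    rw [this]
    exact (h z (by simpa using hz)).tsum_eq
  exact (FormalMultilinearSeries.ofScalars_series_eq_zero ℂ).1 (h1.eq_zero_of_eventually h2)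

theorem shift_coeff (x y : H)
    (h : ∀ (z : ℂ) (hz : ‖z‖ < 1), ⟪K z hz, x⟫_ℂ = z * ⟪K z hz, y⟫_ℂ) :
    x 0 = 0 ∧ ∀ n, x (n + 1) = y n := by
  let g : ℕ → ℂ := fun n => x n - Nat.casesOn n 0 (fun k => y k)
  have hg : g = 0 := by
    refine coeff_eq_zero g (‖x‖ + ‖y‖) (fun n => ?_) fun z hz => ?_
    · refine (norm_sub_le _ _).trans (add_le_add (lp.norm_apply_le_norm (by simp) x n) ?_)
      cases n with
      | zero => simp
      | succ k => exact lp.norm_apply_le_norm (by simp) y k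
    · have h1 := hasSum_K hz x
      have h2 : HasSum (fun n : ℕ => (Nat.casesOn n 0 (fun k => y k) : ℂ) * z ^ n)
          (z * ⟪K z hz, y⟫_ℂ) := by
        rw [← hasSum_nat_add_iff' 1]
        have h3 := (hasSum_K hz y).mul_left z
        have e : (fun n => z * (y n * z ^ n)) = fun n => y n * z ^ (n + 1) := by
          funext n; ring
        rw [e] at h3
        simpa using h3
      have h4 := h1.sub h2
      rw [h z hz, sub_self] at h4
      have e : (fun n => g n * z ^ n) =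
          fun b => x b * z ^ b - (Nat.casesOn b 0 (fun k => y k) : ℂ) * z ^ b := by
        funext n
        simp only [g]
        ring
      rw [e]
      exact h4
  refine ⟨?_, fun n => ?_⟩
  · simpa [g] using congrFun hg 0
  · simpa [g, sub_eq_zero] using congrFun hg (n + 1)

theorem inner_shift {x y x' y' : H}
    (h : ∀ (z : ℂ) (hz : ‖z‖ < 1), ⟪K z hz, x⟫_ℂ = z * ⟪K z hz, y⟫_ℂ)
    (h' : ∀ (z : ℂ) (hz : ‖z‖ < 1), ⟪K z hz, x'⟫_ℂ = z * ⟪K z hz, y'⟫_ℂ) :
    ⟪x, x'⟫_ℂ = ⟪y, y'⟫_ℂ := by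
  obtain ⟨h0, h1⟩ := shift_coeff x y h
  obtain ⟨-, h1'⟩ := shift_coeff x' y' h'
  have a1 := lp.hasSum_inner (𝕜 := ℂ) x x'
  have a2 := lp.hasSum_inner (𝕜 := ℂ) y y'
  rw [← hasSum_nat_add_iff' 1] at a1
  simp only [h0, h1, h1', Finset.range_one, Finset.sum_singleton, inner_zero_left, sub_zero] at a1
  exact a1.unique a2

theorem cubic_zero {U : Set ℂ} (hU : U.Infinite) {c0 c1 c2 c3 : ℂ}
    (h : ∀ z ∈ U, c0 + c1 * z + c2 * z ^ 2 + c3 * z ^ 3 = 0) :
    c0 = 0 ∧ c1 = 0 ∧ c2 = 0 ∧ c3 = 0 := by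
  let q : Polynomial ℂ := Polynomial.C c0 + Polynomial.C c1 * Polynomial.X +
    Polynomial.C c2 * Polynomial.X ^ 2 + Polynomial.C c3 * Polynomial.X ^ 3
  have hq : q = 0 := by
    refine Polynomial.eq_zero_of_infinite_isRoot q (hU.mono fun z hz => ?_)
    simpa [q, Polynomial.IsRoot] using h z hz
  have e : ∀ n, q.coeff n = 0 := fun n => by rw [hq]; rfl
  refine ⟨?_, ?_, ?_, ?_⟩
  · simpa [q, Polynomial.coeff_X, Polynomial.coeff_C] using e 0
  · simpa [q, Polynomial.coeff_X, Polynomial.coeff_C] using e 1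
  · simpa [q, Polynomial.coeff_X, Polynomial.coeff_C] using e 2
  · simpa [q, Polynomial.coeff_X, Polynomial.coeff_C] using e 3

theorem three_term {U : Set ℂ} (hU : U.Infinite) {e1 e2 e3 p1 q1 p2 q2 p3 q3 r1 t1 r2 t2 r3 t3 : ℂ}
    (h : ∀ z ∈ U, e1 * (r1 + t1 * z) * (p2 + q2 * z) * (p3 + q3 * z) +
      e2 * (r2 + t2 * z) * (p1 + q1 * z) * (p3 + q3 * z) +
      e3 * (r3 + t3 * z) * (p1 + q1 * z) * (p2 + q2 * z) = 0) :
    e1 * (r1 * q1 - t1 * p1) * (p2 * q1 - q2 * p1) * (p3 * q1 - q3 * p1) = 0 := by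
  obtain ⟨h0, h1, h2, h3⟩ := cubic_zero hU
    (c0 := e1 * r1 * p2 * p3 + e2 * r2 * p1 * p3 + e3 * r3 * p1 * p2)
    (c1 := e1 * (t1 * p2 * p3 + r1 * q2 * p3 + r1 * p2 * q3) +
      e2 * (t2 * p1 * p3 + r2 * q1 * p3 + r2 * p1 * q3) +
      e3 * (t3 * p1 * p2 + r3 * q1 * p2 + r3 * p1 * q2))
    (c2 := e1 * (t1 * q2 * p3 + t1 * p2 * q3 + r1 * q2 * q3) +
      e2 * (t2 * q1 * p3 + t2 * p1 * q3 + r2 * q1 * q3) +
      e3 * (t3 * q1 * p2 + t3 * p1 * q2 + r3 * q1 * q2))
    (c3 := e1 * t1 * q2 * q3 + e2 * t2 * q1 * q3 + e3 * t3 * q1 * q2)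
    (fun z hz => by linear_combination h z hz)
  linear_combination q1 ^ 3 * h0 - q1 ^ 2 * p1 * h1 + q1 * p1 ^ 2 * h2 - p1 ^ 3 * h3

/-- the algebraic core -/
theorem algebra_core {U V : Set ℂ} (hU : U.Infinite) (hV : V.Infinite) (u v : ℂ → ℂ)
    (hu : ∀ z ∈ U, u z ≠ 0) (hv : ∀ s ∈ V, v s ≠ 0)
    {P00 P01 P10 P11 R00 R01 R10 R11 : ℂ} (hP : P00 * P11 - P01 * P10 ≠ 0)
    (F : ℂ → ℂ → ℂ)
    (hF : ∀ z ∈ U, ∀ s ∈ V, F z s * ((P00 + P01 * s) + (P10 + P11 * s) * z) =
      u z * v s * ((R00 + R01 * s) + (R10 + R11 * s) * z)) (β : ℂ → ℂ)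
    (hadd : ∀ z ∈ U, ∀ s ∈ V, ∀ s' ∈ V, F z s - F z s' = β s - β s') :
    ∃ κ : ℂ, R00 = κ * P00 ∧ R01 = κ * P01 ∧ R10 = κ * P10 ∧ R11 = κ * P11 := by
  -- the quadratic `Q`
  let Q : ℂ → ℂ := fun s => (R00 + R01 * s) * (P10 + P11 * s) - (R10 + R11 * s) * (P00 + P01 * s)
  have hQ : {s ∈ V | Q s = 0}.Infinite := by
    by_contra hfin
    rw [not_infinite] at hfin
    have hV' : (V \ {s ∈ V | Q s = 0}).Infinite := hV.sdiff hfin
    set V' := V \ {s ∈ V | Q s = 0} with hV'def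
    have hmem : ∀ s ∈ V', s ∈ V ∧ Q s ≠ 0 := fun s hs => ⟨hs.1, fun h => hs.2 ⟨hs.1, h⟩⟩
    have gen : ∀ s1 ∈ V', ∀ s2 ∈ V', ∀ s3 ∈ V', s1 ≠ s2 → s1 ≠ s3 → ∀ c1 c2 c3 : ℂ,
        (∀ z ∈ U, c1 * F z s1 + c2 * F z s2 + c3 * F z s3 = 0) → c1 = 0 := by
      intro s1 h1 s2 h2 s3 h3 h12 h13 c1 c2 c3 hrel
      have := three_term hU (e1 := c1 * v s1) (e2 := c2 * v s2) (e3 := c3 * v s3)
        (p1 := P00 + P01 * s1) (q1 := P10 + P11 * s1) (p2 := P00 + P01 * s2)
        (q2 := P10 + P11 * s2) (p3 := P00 + P01 * s3) (q3 := P10 + P11 * s3)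
        (r1 := R00 + R01 * s1) (t1 := R10 + R11 * s1) (r2 := R00 + R01 * s2)
        (t2 := R10 + R11 * s2) (r3 := R00 + R01 * s3) (t3 := R10 + R11 * s3) (fun z hz => by
          have a1 := hF z hz s1 (hmem s1 h1).1
          have a2 := hF z hz s2 (hmem s2 h2).1
          have a3 := hF z hz s3 (hmem s3 h3).1
          have a4 := hrel z hz
          apply mul_left_cancel₀ (hu z hz)
          generalize P00 + P01 * s1 + (P10 + P11 * s1) * z = X1 at *
          generalize P00 + P01 * s2 + (P10 + P11 * s2) * z = X2 at *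
          generalize P00 + P01 * s3 + (P10 + P11 * s3) * z = X3 at *
          generalize R00 + R01 * s1 + (R10 + R11 * s1) * z = Y1 at *
          generalize R00 + R01 * s2 + (R10 + R11 * s2) * z = Y2 at *
          generalize R00 + R01 * s3 + (R10 + R11 * s3) * z = Y3 at *
          linear_combination X1 * X2 * X3 * a4 - c1 * X2 * X3 * a1 - c2 * X1 * X3 * a2
            - c3 * X1 * X2 * a3)
      have b2 : (P00 + P01 * s2) * (P10 + P11 * s1) - (P10 + P11 * s2) * (P00 + P01 * s1) ≠ 0 := by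
        have : (P00 + P01 * s2) * (P10 + P11 * s1) - (P10 + P11 * s2) * (P00 + P01 * s1) =
          (P00 * P11 - P01 * P10) * (s1 - s2) := by ring
        rw [this]
        exact mul_ne_zero hP (sub_ne_zero.2 h12)
      have b3 : (P00 + P01 * s3) * (P10 + P11 * s1) - (P10 + P11 * s3) * (P00 + P01 * s1) ≠ 0 := by
        have : (P00 + P01 * s3) * (P10 + P11 * s1) - (P10 + P11 * s3) * (P00 + P01 * s1) =
          (P00 * P11 - P01 * P10) * (s1 - s3) := by ring
        rw [this]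
        exact mul_ne_zero hP (sub_ne_zero.2 h13)
      have b4 := (mul_eq_zero.1 ((mul_eq_zero.1 ((mul_eq_zero.1 this).resolve_right b3)).resolve_right
        b2)).resolve_right (hmem s1 h1).2
      exact (mul_eq_zero.1 b4).resolve_right (hv s1 (hmem s1 h1).1)
    obtain ⟨s2, h2⟩ := hV'.nonempty
    obtain ⟨s3, h3, h32⟩ := hV'.exists_notMem_finite (finite_singleton s2)
    obtain ⟨s1, h1, h123⟩ := hV'.exists_notMem_finite (toFinite {s2, s3})
    simp only [mem_insert_iff, mem_singleton_iff, not_or] at h123 h32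
    have hβ : β s2 - β s3 = 0 := by
      refine gen s1 h1 s2 h2 s3 h3 h123.1 h123.2 _ (β s3 - β s1) (β s1 - β s2) fun z hz => ?_
      have a1 := hadd z hz s1 (hmem s1 h1).1 s2 (hmem s2 h2).1
      have a2 := hadd z hz s1 (hmem s1 h1).1 s3 (hmem s3 h3).1
      linear_combination (β s1 - β s3) * a1 - (β s1 - β s2) * a2
    have := gen s2 h2 s3 h3 s1 h1 (Ne.symm h32) (Ne.symm h123.1) 1 (-1) 0 fun z hz => by
      have a1 := hadd z hz s2 (hmem s2 h2).1 s3 (hmem s3 h3).1
      linear_combination a1 + hβ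
    exact one_ne_zero this
  obtain ⟨h0, h1, h2, -⟩ := cubic_zero hQ (c0 := R00 * P10 - R10 * P00)
    (c1 := R00 * P11 + R01 * P10 - R10 * P01 - R11 * P00) (c2 := R01 * P11 - R11 * P01) (c3 := 0)
    (fun s hs => by
      have : Q s = 0 := hs.2
      simp only [Q] at this
      linear_combination this)
  refine ⟨(R00 * P11 - R10 * P01) / (P00 * P11 - P01 * P10), ?_, ?_, ?_, ?_⟩
  · rw [div_mul_eq_mul_div, eq_div_iff hP]
    linear_combination (-P01) * h0
  · rw [div_mul_eq_mul_div, eq_div_iff hP]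
    linear_combination P00 * h2 - P01 * h1
  · rw [div_mul_eq_mul_div, eq_div_iff hP]
    linear_combination (-P11) * h0
  · rw [div_mul_eq_mul_div, eq_div_iff hP]
    linear_combination P10 * h2 - P11 * h1

theorem infinite_ne_zero {u : ℂ → ℂ} (hu : ContinuousOn u (Metric.ball 0 1)) {z₀ : ℂ}
    (hz₀ : ‖z₀‖ < 1) (h0 : u z₀ ≠ 0) : {z : ℂ | ‖z‖ < 1 ∧ u z ≠ 0}.Infinite := by
  have hb : Metric.ball (0 : ℂ) 1 ∈ 𝓝 z₀ := Metric.isOpen_ball.mem_nhds (by simpa using hz₀)
  have h1 : ∀ᶠ z in 𝓝 z₀, u z ≠ 0 := (hu.continuousAt hb).eventually_ne h0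
  refine infinite_of_mem_nhds z₀ ?_
  filter_upwards [hb, h1] with z hz hz'
  exact ⟨by simpa using hz, hz'⟩

theorem main (a b c d : ℂ) (hdet : a * d - b * c ≠ 0)
    (hden : ∀ z : ℂ, ‖z‖ < 1 → c * z + d ≠ 0)
    (hφ : ∀ z : ℂ, ‖z‖ < 1 → ‖(a * z + b) / (c * z + d)‖ < 1)
    (ψ : ℂ → ℂ) (hψ : ContinuousOn ψ (Metric.ball 0 1)) (W : H →L[ℂ] H)
    (hW : ∀ (f : H) (z : ℂ), ‖z‖ < 1 →
      ∑' n, W f n * z ^ n = ψ z * ∑' n, f n * ((a * z + b) / (c * z + d)) ^ n)
    (hN : W ∘L ContinuousLinearMap.adjoint W = ContinuousLinearMap.adjoint W ∘L W) :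
    ∃ κ : ℂ, ∀ z : ℂ, ‖z‖ < 1 → ψ z = κ / (c * z + d) := by
  have hW' : ∀ (f : H) (z : ℂ) (hz : ‖z‖ < 1),
      ⟪K z hz, W f⟫_ℂ = ψ z * ⟪K _ (hφ z hz), f⟫_ℂ := fun f z hz => by
    rw [inner_K, inner_K, hW f z hz]
  have hadj : ∀ (z : ℂ) (hz : ‖z‖ < 1),
      ContinuousLinearMap.adjoint W (K z hz) = conj (ψ z) • K _ (hφ z hz) := by
    intro z hz
    refine ext_inner_right ℂ fun f => ?_
    rw [ContinuousLinearMap.adjoint_inner_left, hW', inner_smul_left, Complex.conj_conj]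
  let u : ℂ → ℂ := fun z => ψ z * (c * z + d)
  have hu : ContinuousOn u (Metric.ball 0 1) := hψ.mul (by fun_prop)
  -- Gram matrix of the images of the kernels
  have hG : ∀ (z w : ℂ) (hz : ‖z‖ < 1) (hw : ‖w‖ < 1),
      ⟪W (K z hz), W (K w hw)⟫_ℂ *
        ((c * z + d) * conj (c * w + d) - (a * z + b) * conj (a * w + b)) = u z * conj (u w) := by
    intro z w hz hw
    have h1 : ⟪W (K z hz), W (K w hw)⟫_ℂ = ⟪ContinuousLinearMap.adjoint W (K z hz),
        ContinuousLinearMap.adjoint W (K w hw)⟫_ℂ := by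
      rw [ContinuousLinearMap.adjoint_inner_left, ← ContinuousLinearMap.adjoint_inner_right]
      congr 1
      exact (congrArg (fun T : H →L[ℂ] H => T (K w hw)) hN).symm
    rw [h1, hadj, hadj, inner_smul_left, inner_smul_right, inner_K_K, Complex.conj_conj]
    have h2 : (1 - (a * z + b) / (c * z + d) * conj ((a * w + b) / (c * w + d))) ≠ 0 := by
      intro h
      have h3 : ‖(a * z + b) / (c * z + d) * conj ((a * w + b) / (c * w + d))‖ < 1 := by
        rw [norm_mul, Complex.norm_conj]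
        exact mul_lt_one_of_nonneg_of_lt_one_left (norm_nonneg _) (hφ z hz) (hφ w hw).le
      rw [← sub_eq_zero.1 h] at h3
      simp at h3
    have h4 : conj (c * w + d) ≠ 0 := (map_ne_zero _).2 (hden w hw)
    have h5 := hden z hz
    have h6 : (c * z + d) * conj (c * w + d) - (a * z + b) * conj (a * w + b) =
        (c * z + d) * conj (c * w + d) *
          (1 - (a * z + b) / (c * z + d) * conj ((a * w + b) / (c * w + d))) := by
      rw [map_div₀]
      field_simp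
    rw [h6]
    simp only [u, map_mul]
    generalize (1 - (a * z + b) / (c * z + d) * conj ((a * w + b) / (c * w + d))) = X at *
    field_simp
  -- values of the images of the kernels
  have hval : ∀ (ζ w : ℂ) (hζ : ‖ζ‖ < 1) (hw : ‖w‖ < 1),
      ⟪K ζ hζ, W (K w hw)⟫_ℂ * ((d - conj w * b) - (conj w * a - c) * ζ) = u ζ := by
    intro ζ w hζ hw
    rw [hW', inner_K_K]
    have h2 : (1 - (a * ζ + b) / (c * ζ + d) * conj w) ≠ 0 := by
      intro h
      have h3 : ‖(a * ζ + b) / (c * ζ + d) * conj w‖ < 1 := by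
        rw [norm_mul, Complex.norm_conj]
        exact mul_lt_one_of_nonneg_of_lt_one_left (norm_nonneg _) (hφ ζ hζ) hw.le
      rw [← sub_eq_zero.1 h] at h3
      simp at h3
    have h5 := hden ζ hζ
    have h6 : (d - conj w * b) - (conj w * a - c) * ζ =
        (c * ζ + d) * (1 - (a * ζ + b) / (c * ζ + d) * conj w) := by
      field_simp
      ring
    rw [h6]
    simp only [u]
    generalize (1 - (a * ζ + b) / (c * ζ + d) * conj w) = X at *
    field_simp
  have hshift : ∀ (w w' : ℂ) (hw : ‖w‖ < 1) (hw' : ‖w'‖ < 1) (ζ : ℂ) (hζ : ‖ζ‖ < 1),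
      ⟪K ζ hζ, (d - conj w * b) • W (K w hw) - (d - conj w' * b) • W (K w' hw')⟫_ℂ =
        ζ * ⟪K ζ hζ, (conj w * a - c) • W (K w hw) - (conj w' * a - c) • W (K w' hw')⟫_ℂ := by
    intro w w' hw hw' ζ hζ
    simp only [inner_sub_right, inner_smul_right]
    linear_combination hval ζ w hζ hw - hval ζ w' hζ hw'
  -- the additive function
  classical
  let F : ℂ → ℂ → ℂ := fun z s =>
    if h : ‖z‖ < 1 ∧ ‖conj s‖ < 1 then
      ((conj d - z * conj b) * (d - s * b) - (z * conj a - conj c) * (s * a - c)) *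
        ⟪W (K z h.1), W (K (conj s) h.2)⟫_ℂ
    else 0
  have hFadd : ∀ z z' s s' : ℂ, ‖z‖ < 1 → ‖z'‖ < 1 → ‖s‖ < 1 → ‖s'‖ < 1 →
      F z s - F z s' = F z' s - F z' s' := by
    intro z z' s s' hz hz' hs hs'
    have hs1 : ‖conj s‖ < 1 := by rwa [Complex.norm_conj]
    have hs1' : ‖conj s'‖ < 1 := by rwa [Complex.norm_conj]
    have := inner_shift (hshift z z' hz hz') (hshift _ _ hs1 hs1')
    simp only [inner_sub_right, inner_sub_left, inner_smul_right, inner_smul_left, map_sub, map_mul,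
      Complex.conj_conj] at this
    simp only [F, dif_pos (And.intro hz hs1), dif_pos (And.intro hz hs1'),
      dif_pos (And.intro hz' hs1), dif_pos (And.intro hz' hs1')]
    linear_combination this
  have hFP : ∀ z s : ℂ, ‖z‖ < 1 → ‖s‖ < 1 →
      F z s * ((d * conj d - b * conj b + (d * conj c - b * conj a) * s) +
        ((c * conj d - a * conj b) + (c * conj c - a * conj a) * s) * z) =
      u z * conj (u (conj s)) * ((conj d * d - conj c * c + (conj c * a - conj d * b) * s) +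
        ((conj a * c - conj b * d) + (conj b * b - conj a * a) * s) * z) := by
    intro z s hz hs
    have hs1 : ‖conj s‖ < 1 := by rwa [Complex.norm_conj]
    have := hG z _ hz hs1
    simp only [map_add, map_mul, Complex.conj_conj] at this
    simp only [F, dif_pos (And.intro hz hs1)]
    rw [← this]
    ring
  have hdet' : conj a * conj d - conj b * conj c ≠ 0 := by
    have := (map_ne_zero (starRingEnd ℂ)).2 hdet
    simpa using this
  have key : ∀ z : ℂ, ‖z‖ < 1 → u z = u 0 := by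
    by_cases hz₀ : ∃ z₀ : ℂ, ‖z₀‖ < 1 ∧ u z₀ ≠ 0
    swap
    · push Not at hz₀
      intro z hz
      rw [hz₀ z hz, hz₀ 0 (by simp)]
    obtain ⟨z₀, hz₀, h0⟩ := hz₀
    have hU := infinite_ne_zero hu hz₀ h0
    have hV : (conj '' {z : ℂ | ‖z‖ < 1 ∧ u z ≠ 0}).Infinite :=
      hU.image (starRingEnd ℂ).injective.injOn
    have hVm : ∀ s ∈ (conj '' {z : ℂ | ‖z‖ < 1 ∧ u z ≠ 0}), ‖s‖ < 1 ∧ conj (u (conj s)) ≠ 0 := by
      rintro _ ⟨w, hw, rfl⟩
      rw [Complex.norm_conj, Complex.conj_conj]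
      exact ⟨hw.1, (map_ne_zero _).2 hw.2⟩
    have hPdet : (d * conj d - b * conj b) * (c * conj c - a * conj a) -
        (d * conj c - b * conj a) * (c * conj d - a * conj b) ≠ 0 := by
      have : (d * conj d - b * conj b) * (c * conj c - a * conj a) -
        (d * conj c - b * conj a) * (c * conj d - a * conj b) =
        -((a * d - b * c) * (conj a * conj d - conj b * conj c)) := by ring
      rw [this]
      exact neg_ne_zero.2 (mul_ne_zero hdet hdet')
    obtain ⟨κ, k0, k1, k2, k3⟩ := algebra_core hU hV u (fun s => conj (u (conj s)))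
      (fun z hz => hz.2) (fun s hs => (hVm s hs).2) hPdet F
      (fun z hz s hs => hFP z s hz.1 (hVm s hs).1) (F 0)
      (fun z hz s hs s' hs' => hFadd z 0 s s' hz.1 (by simp) (hVm s hs).1 (hVm s' hs').1)
    have hκ : κ ≠ 0 := by
      rintro rfl
      apply mul_ne_zero hdet hdet'
      rw [zero_mul] at k0 k1 k2 k3
      linear_combination -(conj b * b - conj a * a) * k0 + (conj a * c - conj b * d) * k1
    have hFu : ∀ z s : ℂ, ‖z‖ < 1 → ‖s‖ < 1 → F z s = κ * (u z * conj (u (conj s))) := by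
      intro z s hz hs
      have hs1 : ‖conj s‖ < 1 := by rwa [Complex.norm_conj]
      have h1 := hG z _ hz hs1
      simp only [map_add, map_mul, Complex.conj_conj] at h1
      simp only [F, dif_pos (And.intro hz hs1)]
      rw [← h1]
      generalize ⟪W (K z hz), W (K (conj s) hs1)⟫_ℂ = G
      linear_combination G * (k0 + s * k1 + z * k2 + s * z * k3)
    intro z hz
    have hz1 : ‖conj z‖ < 1 := by rwa [Complex.norm_conj]
    have h1 := hFadd z 0 (conj z) 0 hz (by simp) hz1 (by simp)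
    rw [hFu _ _ hz hz1, hFu _ _ hz (by simp), hFu _ _ (by simp) hz1,
      hFu 0 0 (by simp) (by simp), Complex.conj_conj, map_zero] at h1
    have h2 : κ * ((u z - u 0) * conj (u z - u 0)) = 0 := by
      rw [map_sub]
      linear_combination h1
    rcases mul_eq_zero.1 ((mul_eq_zero.1 h2).resolve_left hκ) with h | h
    · exact sub_eq_zero.1 h
    · exact sub_eq_zero.1 ((map_eq_zero _).1 h)
  refine ⟨u 0, fun z hz => ?_⟩
  rw [eq_div_iff (hden z hz)]
  exact key z hz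

end Pool.Agent.P.MP_9100ee_an
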